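import Pool.Agent.Helper42.LS.Defs

/-! CK: one dominating place. -/

set_option autoImplicit false

open Filter Topology

namespace Pool.Agent.Helper42.LS

theorem st_CK (hF2 : ST_F2) : ST_CK := by
  intro V w t κ v₀ hw hv₀ hκ hκ1 hH
  set H := ∑ v ∈ V, w v with hHdef
  have hH0 : 0 ≤ H := Finset.sum_nonneg hw
  set K := ⌈14 / κ⌉₊ with hK
  have hK14 : 14 ≤ κ * K := by
    have := Nat.le_ceil (14 / κ)
    rw [div_le_iff₀ hκ] at this
    rw [← hK] at this
    linarith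
  have hK1 : 14 ≤ K := by
    have h1 : (14 : ℝ) ≤ K := by
      have h2 : κ * K ≤ 1 * K := mul_le_mul_of_nonneg_right hκ1 (by positivity)
      linarith
    exact_mod_cast h1
  by_contra hcon
  push Not at hcon
  have hs : ∀ k ∈ Finset.Ico 1 K, ∑ v ∈ V, w v * B2 (k * t v) ≤ κ / 80 * H := by
    intro k hk
    rw [Finset.mem_Ico] at hk
    refine (hcon k hk.1 ?_).le
    have h1 : (k : ℝ) < 14 / κ := Nat.lt_ceil.1 hk.2
    rw [lt_div_iff₀ hκ] at h1
    linarith
  have hs1 := hcon 1 le_rfl (by push_cast; linarith)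
  -- sum of the inequalities F2
  set G : ℕ → ℝ := fun v => 1 / 3 + 2 * ∑ k ∈ Finset.Ico 1 K, (1 - (k : ℝ) / K) *
    (1 + Real.cos (2 * Real.pi * k * t v₀)) * B2 (k * t v) with hG
  have hG0 : ∀ v, 0 ≤ G v := fun v => (hF2 K (t v₀) (t v) (by omega)).1
  have hG1 : (K : ℝ) / (2 * Real.pi ^ 2) ≤ G v₀ := (hF2 K (t v₀) (t v₀) (by omega)).2
  have h1 : w v₀ * (K / (2 * Real.pi ^ 2)) ≤ ∑ v ∈ V, w v * G v := by
    calc w v₀ * (K / (2 * Real.pi ^ 2)) ≤ w v₀ * G v₀ :=
          mul_le_mul_of_nonneg_left hG1 (hw v₀ hv₀)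
      _ ≤ ∑ v ∈ V, w v * G v := Finset.single_le_sum (f := fun v => w v * G v)
          (fun v hv => mul_nonneg (hw v hv) (hG0 v)) hv₀
  have h2 : ∑ v ∈ V, w v * G v = H / 3 + 2 * ∑ k ∈ Finset.Ico 1 K, (1 - (k : ℝ) / K) *
      (1 + Real.cos (2 * Real.pi * k * t v₀)) * ∑ v ∈ V, w v * B2 (k * t v) := by
    have h3 : ∀ v ∈ V, w v * G v = w v * (1 / 3) + 2 * ∑ k ∈ Finset.Ico 1 K, (1 - (k : ℝ) / K) *
        (1 + Real.cos (2 * Real.pi * k * t v₀)) * (w v * B2 (k * t v)) := by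
      intro v _
      simp only [hG]
      rw [mul_add, mul_left_comm, Finset.mul_sum]
      congr 2
      refine Finset.sum_congr rfl fun k _ => ?_
      ring
    rw [Finset.sum_congr rfl h3, Finset.sum_add_distrib, ← Finset.sum_mul, ← Finset.mul_sum,
      Finset.sum_comm]
    congr 1
    · rw [hHdef]; ring
    · congr 1
      refine Finset.sum_congr rfl fun k _ => ?_
      rw [Finset.mul_sum]
  have hKpos : (0 : ℝ) < K := by
    have : 0 < K := by omega
    exact_mod_cast this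
  have h3 : ∑ k ∈ Finset.Ico 1 K, (1 - (k : ℝ) / K) *
      (1 + Real.cos (2 * Real.pi * k * t v₀)) * ∑ v ∈ V, w v * B2 (k * t v) ≤
      K * (κ / 80 * H) := by
    have h4 : ∀ k ∈ Finset.Ico 1 K, (1 - (k : ℝ) / K) *
      (1 + Real.cos (2 * Real.pi * k * t v₀)) * ∑ v ∈ V, w v * B2 (k * t v) ≤
        2 * (κ / 80 * H) * (1 - (k : ℝ) / K) := by
      intro k hk
      have h5 := hs k hk
      rw [Finset.mem_Ico] at hk
      have h6 : 0 ≤ 1 - (k : ℝ) / K := by
        have : (k : ℝ) ≤ K := by exact_mod_cast hk.2.le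
        rw [sub_nonneg, div_le_one hKpos]; exact this
      have h7 : 0 ≤ 1 + Real.cos (2 * Real.pi * k * t v₀) := by
        linarith [Real.neg_one_le_cos (2 * Real.pi * k * t v₀)]
      have h8 : 1 + Real.cos (2 * Real.pi * k * t v₀) ≤ 2 := by
        linarith [Real.cos_le_one (2 * Real.pi * k * t v₀)]
      have h9 : 0 ≤ κ / 80 * H := by positivity
      calc (1 - (k : ℝ) / K) * (1 + Real.cos (2 * Real.pi * k * t v₀)) * ∑ v ∈ V, w v * B2 (k * t v)
          ≤ (1 - (k : ℝ) / K) * (1 + Real.cos (2 * Real.pi * k * t v₀)) * (κ / 80 * H) :=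
            mul_le_mul_of_nonneg_left h5 (mul_nonneg h6 h7)
        _ ≤ (1 - (k : ℝ) / K) * 2 * (κ / 80 * H) :=
            mul_le_mul_of_nonneg_right (mul_le_mul_of_nonneg_left h8 h6) h9
        _ = 2 * (κ / 80 * H) * (1 - (k : ℝ) / K) := by ring
    refine (Finset.sum_le_sum h4).trans ?_
    rw [← Finset.mul_sum]
    have h5 : 2 * ∑ k ∈ Finset.Ico 1 K, (1 - (k : ℝ) / K) ≤ K := by
      have h6 : ∀ n : ℕ, 1 ≤ n → 2 * ∑ k ∈ Finset.Ico 1 n, ((K : ℝ) - k) =
          ((n : ℝ) - 1) * (2 * K - n) := by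
        intro n hn
        induction n, hn using Nat.le_induction with
        | base => simp
        | succ n hn ih =>
          rw [Finset.sum_Ico_succ_top hn, mul_add, ih]
          push_cast
          ring
      have h7 := h6 K (by omega)
      have h8 : ∑ k ∈ Finset.Ico 1 K, (1 - (k : ℝ) / K) =
          (∑ k ∈ Finset.Ico 1 K, ((K : ℝ) - k)) / K := by
        rw [Finset.sum_div]
        refine Finset.sum_congr rfl fun k _ => ?_
        rw [sub_div, div_self hKpos.ne']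
      rw [h8, mul_div_assoc', h7, div_le_iff₀ hKpos]
      nlinarith
    have h9 : 0 ≤ κ / 80 * H := by positivity
    calc 2 * (κ / 80 * H) * ∑ k ∈ Finset.Ico 1 K, (1 - (k : ℝ) / K)
        = (2 * ∑ k ∈ Finset.Ico 1 K, (1 - (k : ℝ) / K)) * (κ / 80 * H) := by ring
      _ ≤ K * (κ / 80 * H) := mul_le_mul_of_nonneg_right h5 h9
  have hpi : Real.pi ^ 2 < 10 := by
    have h4 := Real.pi_lt_d2
    have h5 := Real.pi_pos
    nlinarith
  have hpi0 : 0 < Real.pi ^ 2 := by positivity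
  have h4 : w v₀ * (K / 20) ≤ w v₀ * (K / (2 * Real.pi ^ 2)) := by
    refine mul_le_mul_of_nonneg_left ?_ (hw v₀ hv₀)
    refine div_le_div_of_nonneg_left hKpos.le (by positivity) (by linarith)
  have h5 : κ * H * (K / 20) ≤ w v₀ * (K / 20) :=
    mul_le_mul_of_nonneg_right hH (by positivity)
  have h6 : κ * H * (K / 20) ≤ H / 3 + 2 * (K * (κ / 80 * H)) := by
    rw [h2] at h1
    linarith
  have h7 : H * (κ * K) ≤ H * (40 / 3) := by nlinarith
  have h8 : H * 14 ≤ H * (κ * K) := mul_le_mul_of_nonneg_left hK14 hH0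
  have h9 : H = 0 := by nlinarith
  rw [h9] at hs1
  have h10 : ∀ v ∈ V, w v = 0 := (Finset.sum_eq_zero_iff_of_nonneg hw).1 h9
  have h11 : ∑ v ∈ V, w v * B2 (((1 : ℕ) : ℝ) * t v) = 0 :=
    Finset.sum_eq_zero fun v hv => by rw [h10 v hv, zero_mul]
  rw [h11, mul_zero] at hs1
  exact lt_irrefl _ hs1

end Pool.Agent.Helper42.LS
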