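import Pool.Agent.Helper42.LS.Defs

/-! FB, F1, F2, F3, F4: Fourier expansion of the Bernoulli function and kernels. -/

set_option autoImplicit false

open Filter Topology

namespace Pool.Agent.Helper42.LS

theorem fb_B2_zero : B2 0 = 1 / 6 := by simp [B2]

theorem fb_cos_fract (n : ℕ) (t : ℝ) :
    Real.cos (2 * Real.pi * (n + 1) * t) = Real.cos (2 * Real.pi * ((n + 1 : ℕ) : ℝ) * Int.fract t) := by
  have h : 2 * Real.pi * ((n : ℝ) + 1) * t =
      2 * Real.pi * ((n + 1 : ℕ) : ℝ) * Int.fract t + ((((n : ℤ) + 1) * ⌊t⌋ : ℤ) : ℝ) * (2 * Real.pi) := by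
    have h1 : t = (⌊t⌋ : ℝ) + Int.fract t := (Int.floor_add_fract t).symm
    nth_rewrite 1 [h1]
    push_cast
    ring
  rw [h, Real.cos_add_int_mul_two_pi]

theorem st_FB : ST_FB := by
  intro t
  have hx : Int.fract t ∈ Set.Icc (0 : ℝ) 1 := ⟨Int.fract_nonneg t, (Int.fract_lt_one t).le⟩
  have h := hasSum_one_div_nat_pow_mul_cos (k := 1) one_ne_zero hx
  have h2 := (hasSum_nat_add_iff' 1).2 h
  have e1 : (fun n : ℕ => Real.cos (2 * Real.pi * (n + 1) * t) / ((n : ℝ) + 1) ^ 2) =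
      fun n : ℕ => 1 / ((n + 1 : ℕ) : ℝ) ^ (2 * 1) *
        Real.cos (2 * Real.pi * ((n + 1 : ℕ) : ℝ) * Int.fract t) := by
    funext n
    rw [fb_cos_fract]
    push_cast
    ring
  rw [e1]
  have e2 : Real.pi ^ 2 * B2 t = (-1 : ℝ) ^ (1 + 1) * (2 * Real.pi) ^ (2 * 1) / 2 / (Nat.factorial (2 * 1) : ℝ) *
        (Polynomial.map (algebraMap ℚ ℝ) (Polynomial.bernoulli (2 * 1))).eval (Int.fract t) -
        ∑ i ∈ Finset.range 1, 1 / (i : ℝ) ^ (2 * 1) * Real.cos (2 * Real.pi * i * Int.fract t) := by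
    have e3 : (Polynomial.map (algebraMap ℚ ℝ) (Polynomial.bernoulli (2 * 1))).eval (Int.fract t) =
        B2 t := by
      rw [mul_one, Polynomial.bernoulli]
      simp only [Finset.sum_range_succ, Finset.sum_range_zero]
      simp [B2, bernoulli_eq_bernoulli'_of_ne_one, bernoulli_one, Polynomial.eval_monomial,
        Nat.choose]
      norm_num
      ring
    rw [e3]
    have e4 : (Nat.factorial (2 * 1) : ℝ) = 2 := by norm_num [Nat.factorial]
    have e5 : (1 : ℝ) / ((0 : ℕ) : ℝ) ^ (2 * 1) = 0 := by norm_num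
    rw [e4, Finset.sum_range_one, e5, zero_mul, sub_zero]
    ring
  rw [e2]
  exact h2

/-- Fejer kernel identity -/
theorem fb_fejer_id (K : ℕ) (a : ℝ) :
    (K : ℝ) + 2 * ∑ k ∈ Finset.Ico 1 K, ((K : ℝ) - k) * Real.cos (k * a) =
      (∑ j ∈ Finset.range K, Real.cos (j * a)) ^ 2 + (∑ j ∈ Finset.range K, Real.sin (j * a)) ^ 2 := by
  induction K with
  | zero => simp
  | succ K ih =>
    have h1 : ∑ k ∈ Finset.Ico 1 (K + 1), (((K + 1 : ℕ) : ℝ) - k) * Real.cos (k * a) =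
        ∑ k ∈ Finset.Ico 1 K, ((K : ℝ) - k) * Real.cos (k * a) +
        ∑ k ∈ Finset.Ico 1 (K + 1), Real.cos (k * a) := by
      have h2 : ∑ k ∈ Finset.Ico 1 (K + 1), (((K + 1 : ℕ) : ℝ) - k) * Real.cos (k * a) =
          ∑ k ∈ Finset.Ico 1 (K + 1), (((K : ℝ) - k) * Real.cos (k * a) + Real.cos (k * a)) := by
        refine Finset.sum_congr rfl fun k _ => ?_
        push_cast; ring
      rw [h2, Finset.sum_add_distrib]
      congr 1
      rcases Nat.eq_zero_or_pos K with rfl | hK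
      · simp
      · rw [Finset.sum_Ico_succ_top hK]; simp
    have h3 : ∑ k ∈ Finset.Ico 1 (K + 1), Real.cos (k * a) =
        ∑ j ∈ Finset.range K, Real.cos (((K : ℝ) - j) * a) := by
      rw [Finset.sum_Ico_eq_sum_range, ← Finset.sum_range_reflect]
      refine Finset.sum_congr (by simp) fun j hj => ?_
      rw [Finset.mem_range] at hj
      have h4 : ((1 + (K + 1 - 1 - 1 - j) : ℕ) : ℝ) = (K : ℝ) - j := by
        have : 1 + (K + 1 - 1 - 1 - j) = K - j := by omega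
        rw [this, Nat.cast_sub (by omega)]
      rw [h4]
    have h5 : ∑ j ∈ Finset.range K, Real.cos (((K : ℝ) - j) * a) =
        Real.cos (K * a) * ∑ j ∈ Finset.range K, Real.cos (j * a) +
        Real.sin (K * a) * ∑ j ∈ Finset.range K, Real.sin (j * a) := by
      rw [Finset.mul_sum, Finset.mul_sum, ← Finset.sum_add_distrib]
      refine Finset.sum_congr rfl fun j _ => ?_
      rw [sub_mul, Real.cos_sub]
    rw [h1, h3, h5, Finset.sum_range_succ, Finset.sum_range_succ]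
    have h6 := Real.sin_sq_add_cos_sq (K * a)
    push_cast
    linear_combination ih - h6

theorem fb_fejer_nonneg (K : ℕ) (hK : 1 ≤ K) (a : ℝ) :
    0 ≤ 1 + 2 * ∑ k ∈ Finset.Ico 1 K, (1 - (k : ℝ) / K) * Real.cos (k * a) := by
  have hK' : (0 : ℝ) < K := by exact_mod_cast hK
  have h1 : (K : ℝ) * (1 + 2 * ∑ k ∈ Finset.Ico 1 K, (1 - (k : ℝ) / K) * Real.cos (k * a)) =
      (K : ℝ) + 2 * ∑ k ∈ Finset.Ico 1 K, ((K : ℝ) - k) * Real.cos (k * a) := by
    rw [mul_add, mul_one, mul_left_comm, Finset.mul_sum]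
    congr 2
    refine Finset.sum_congr rfl fun k _ => ?_
    field_simp
  have h2 : 0 ≤ (K : ℝ) * (1 + 2 * ∑ k ∈ Finset.Ico 1 K, (1 - (k : ℝ) / K) * Real.cos (k * a)) := by
    rw [h1, fb_fejer_id]; positivity
  exact nonneg_of_mul_nonneg_right h2 hK'

theorem fb_fejer_zero (K : ℕ) (hK : 1 ≤ K) :
    1 + 2 * ∑ k ∈ Finset.Ico 1 K, (1 - (k : ℝ) / K) = K := by
  have hK' : (0 : ℝ) < K := by exact_mod_cast hK
  have h := fb_fejer_id K 0
  simp at h
  have h1 : (K : ℝ) * (1 + 2 * ∑ k ∈ Finset.Ico 1 K, (1 - (k : ℝ) / K)) =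
      (K : ℝ) + 2 * ∑ k ∈ Finset.Ico 1 K, ((K : ℝ) - k) := by
    rw [mul_add, mul_one, mul_left_comm, Finset.mul_sum]
    congr 2
    refine Finset.sum_congr rfl fun k _ => ?_
    field_simp
  have h3 : (K : ℝ) + 2 * ∑ k ∈ Finset.Ico 1 K, ((K : ℝ) - k) = K ^ 2 := by
    rw [← h]
    simp
  rw [h3, sq] at h1
  exact mul_left_cancel₀ hK'.ne' h1

theorem fb_fejer_prod (K : ℕ) (hK : 1 ≤ K) (a b : ℝ) :
    0 ≤ 1 + 2 * ∑ k ∈ Finset.Ico 1 K, (1 - (k : ℝ) / K) * (Real.cos (k * a) * Real.cos (k * b)) := by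
  have h1 := fb_fejer_nonneg K hK (a + b)
  have h2 := fb_fejer_nonneg K hK (a - b)
  have h3 : 2 * (1 + 2 * ∑ k ∈ Finset.Ico 1 K, (1 - (k : ℝ) / K) *
      (Real.cos (k * a) * Real.cos (k * b))) =
      (1 + 2 * ∑ k ∈ Finset.Ico 1 K, (1 - (k : ℝ) / K) * Real.cos (k * (a + b))) +
      (1 + 2 * ∑ k ∈ Finset.Ico 1 K, (1 - (k : ℝ) / K) * Real.cos (k * (a - b))) := by
    have h4 : ∑ k ∈ Finset.Ico 1 K, (1 - (k : ℝ) / K) * Real.cos (k * (a + b)) +
        ∑ k ∈ Finset.Ico 1 K, (1 - (k : ℝ) / K) * Real.cos (k * (a - b)) =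
        2 * ∑ k ∈ Finset.Ico 1 K, (1 - (k : ℝ) / K) * (Real.cos (k * a) * Real.cos (k * b)) := by
      rw [Finset.mul_sum, ← Finset.sum_add_distrib]
      refine Finset.sum_congr rfl fun k _ => ?_
      rw [mul_add, mul_sub, Real.cos_add, Real.cos_sub]
      ring
    linear_combination (-2) * h4
  linarith

theorem fb_fejer_sq (K : ℕ) (hK : 1 ≤ K) (a : ℝ) :
    (K : ℝ) / 2 ≤ 1 + 2 * ∑ k ∈ Finset.Ico 1 K, (1 - (k : ℝ) / K) *
      (Real.cos (k * a) * Real.cos (k * a)) := by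
  have h1 := fb_fejer_nonneg K hK (2 * a)
  have h2 := fb_fejer_zero K hK
  have h3 : 2 * (1 + 2 * ∑ k ∈ Finset.Ico 1 K, (1 - (k : ℝ) / K) *
      (Real.cos (k * a) * Real.cos (k * a))) =
      (1 + 2 * ∑ k ∈ Finset.Ico 1 K, (1 - (k : ℝ) / K) * Real.cos (k * (2 * a))) +
      (1 + 2 * ∑ k ∈ Finset.Ico 1 K, (1 - (k : ℝ) / K)) := by
    have h4 : ∑ k ∈ Finset.Ico 1 K, (1 - (k : ℝ) / K) * Real.cos (k * (2 * a)) +
        ∑ k ∈ Finset.Ico 1 K, (1 - (k : ℝ) / K) =
        2 * ∑ k ∈ Finset.Ico 1 K, (1 - (k : ℝ) / K) * (Real.cos (k * a) * Real.cos (k * a)) := by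
      rw [Finset.mul_sum, ← Finset.sum_add_distrib]
      refine Finset.sum_congr rfl fun k _ => ?_
      have h5 : Real.cos (k * (2 * a)) = 2 * Real.cos (k * a) ^ 2 - 1 := by
        rw [← Real.cos_two_mul]; congr 1; ring
      rw [h5]
      ring
    linear_combination (-2) * h4
  linarith

/-- termwise positivity -/
theorem fb_key (hFB : ST_FB) (S : Finset ℕ) (w : ℕ → ℝ) (c₀ D t : ℝ)
    (h0 : ∀ n : ℕ, 0 ≤ c₀ + ∑ k ∈ S, w k * Real.cos (2 * Real.pi * (n + 1) * (k * t)))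
    (hD : D ≤ c₀ + ∑ k ∈ S, w k * Real.cos (2 * Real.pi * (k * t))) :
    D / Real.pi ^ 2 ≤ c₀ / 6 + ∑ k ∈ S, w k * B2 (k * t) := by
  have hs : HasSum (fun n : ℕ => (c₀ + ∑ k ∈ S, w k * Real.cos (2 * Real.pi * (n + 1) * (k * t))) /
      ((n : ℝ) + 1) ^ 2) (c₀ * (Real.pi ^ 2 * (1 / 6)) + ∑ k ∈ S, w k * (Real.pi ^ 2 * B2 (k * t))) := by
    have h1 : HasSum (fun n : ℕ => c₀ * (1 / ((n : ℝ) + 1) ^ 2)) (c₀ * (Real.pi ^ 2 * (1 / 6))) := by
      have := hFB 0
      rw [fb_B2_zero] at this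
      simp only [mul_zero, Real.cos_zero] at this
      exact this.mul_left c₀
    have h2 : HasSum (fun n : ℕ => ∑ k ∈ S, w k * (Real.cos (2 * Real.pi * (n + 1) * (k * t)) /
        ((n : ℝ) + 1) ^ 2)) (∑ k ∈ S, w k * (Real.pi ^ 2 * B2 (k * t))) :=
      hasSum_sum fun k _ => (hFB (k * t)).mul_left (w k)
    have h3 := h1.add h2
    have e : (fun n : ℕ => (c₀ + ∑ k ∈ S, w k * Real.cos (2 * Real.pi * (n + 1) * (k * t))) /
      ((n : ℝ) + 1) ^ 2) = fun n : ℕ => c₀ * (1 / ((n : ℝ) + 1) ^ 2) +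
        ∑ k ∈ S, w k * (Real.cos (2 * Real.pi * (n + 1) * (k * t)) / ((n : ℝ) + 1) ^ 2) := by
      funext n
      rw [add_div, Finset.sum_div]
      congr 1
      · ring
      · refine Finset.sum_congr rfl fun k _ => ?_
        ring
    rw [e]
    exact h3
  have hle := le_hasSum hs 0 (fun j _ => div_nonneg (h0 j) (by positivity))
  have e0 : (c₀ + ∑ k ∈ S, w k * Real.cos (2 * Real.pi * (((0 : ℕ) : ℝ) + 1) * (k * t))) /
      (((0 : ℕ) : ℝ) + 1) ^ 2 = c₀ + ∑ k ∈ S, w k * Real.cos (2 * Real.pi * (k * t)) := by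
    simp
  rw [e0] at hle
  have hpi : (0 : ℝ) < Real.pi ^ 2 := by positivity
  rw [div_le_iff₀ hpi]
  have e1 : (c₀ / 6 + ∑ k ∈ S, w k * B2 (k * t)) * Real.pi ^ 2 =
      c₀ * (Real.pi ^ 2 * (1 / 6)) + ∑ k ∈ S, w k * (Real.pi ^ 2 * B2 (k * t)) := by
    rw [add_mul, Finset.sum_mul]
    congr 1
    · ring
    · refine Finset.sum_congr rfl fun k _ => ?_
      ring
  rw [e1]
  exact hD.trans hle

theorem fb_key0 (hFB : ST_FB) (S : Finset ℕ) (w : ℕ → ℝ) (c₀ t : ℝ)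
    (h0 : ∀ n : ℕ, 0 ≤ c₀ + ∑ k ∈ S, w k * Real.cos (2 * Real.pi * (n + 1) * (k * t))) :
    0 ≤ c₀ / 6 + ∑ k ∈ S, w k * B2 (k * t) := by
  have := fb_key hFB S w c₀ 0 t h0 (by simpa using h0 0)
  simpa using this

theorem st_F1' (hFB : ST_FB) : ST_F1 := by
  intro K t hK
  have h := fb_key0 hFB (Finset.Ico 1 K) (fun k => 2 * (1 - (k : ℝ) / K)) 1 t (by
    intro n
    have := fb_fejer_nonneg K hK (2 * Real.pi * (n + 1) * t)
    rw [Finset.mul_sum] at this
    refine this.trans (le_of_eq ?_)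
    congr 1
    refine Finset.sum_congr rfl fun k _ => ?_
    rw [← mul_assoc]
    congr 2
    ring)
  rw [Finset.mul_sum]
  refine h.trans (le_of_eq ?_)
  congr 1
  refine Finset.sum_congr rfl fun k _ => ?_
  ring

theorem st_F1 : ST_F1 := st_F1' st_FB

theorem st_F2' (hFB : ST_FB) : ST_F2 := by
  intro K s t hK
  have hsplit : ∀ (a b : ℝ), (2 : ℝ) + ∑ k ∈ Finset.Ico 1 K,
      (2 * ((1 - (k : ℝ) / K) * (1 + Real.cos (k * a)))) * Real.cos (k * b) =
      (1 + 2 * ∑ k ∈ Finset.Ico 1 K, (1 - (k : ℝ) / K) * Real.cos (k * b)) +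
      (1 + 2 * ∑ k ∈ Finset.Ico 1 K, (1 - (k : ℝ) / K) * (Real.cos (k * a) * Real.cos (k * b))) := by
    intro a b
    have h4 : ∑ k ∈ Finset.Ico 1 K,
      (2 * ((1 - (k : ℝ) / K) * (1 + Real.cos (k * a)))) * Real.cos (k * b) =
        2 * ∑ k ∈ Finset.Ico 1 K, (1 - (k : ℝ) / K) * Real.cos (k * b) +
        2 * ∑ k ∈ Finset.Ico 1 K, (1 - (k : ℝ) / K) * (Real.cos (k * a) * Real.cos (k * b)) := by
      rw [Finset.mul_sum, Finset.mul_sum, ← Finset.sum_add_distrib]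
      refine Finset.sum_congr rfl fun k _ => ?_
      ring
    rw [h4]; ring
  have hpos : ∀ (s : ℝ) (n : ℕ), 0 ≤ (2 : ℝ) + ∑ k ∈ Finset.Ico 1 K,
      (2 * ((1 - (k : ℝ) / K) * (1 + Real.cos (2 * Real.pi * k * s)))) *
        Real.cos (2 * Real.pi * (n + 1) * (k * t)) := by
    intro s n
    have h1 := hsplit (2 * Real.pi * s) (2 * Real.pi * (n + 1) * t)
    have h2 := fb_fejer_nonneg K hK (2 * Real.pi * (n + 1) * t)
    have h3 := fb_fejer_prod K hK (2 * Real.pi * s) (2 * Real.pi * (n + 1) * t)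
    have h4 : (2 : ℝ) + ∑ k ∈ Finset.Ico 1 K,
      (2 * ((1 - (k : ℝ) / K) * (1 + Real.cos (2 * Real.pi * k * s)))) *
        Real.cos (2 * Real.pi * (n + 1) * (k * t)) = (2 : ℝ) + ∑ k ∈ Finset.Ico 1 K,
      (2 * ((1 - (k : ℝ) / K) * (1 + Real.cos (k * (2 * Real.pi * s))))) *
        Real.cos (k * (2 * Real.pi * (n + 1) * t)) := by
      congr 1
      refine Finset.sum_congr rfl fun k _ => ?_
      rw [show 2 * Real.pi * (k : ℝ) * s = k * (2 * Real.pi * s) by ring,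
        show 2 * Real.pi * ((n : ℝ) + 1) * (k * t) = k * (2 * Real.pi * (n + 1) * t) by ring]
    rw [h4, h1]
    linarith
  constructor
  · have h := fb_key0 hFB (Finset.Ico 1 K)
      (fun k => 2 * ((1 - (k : ℝ) / K) * (1 + Real.cos (2 * Real.pi * k * s)))) 2 t (hpos s)
    rw [Finset.mul_sum]
    refine h.trans (le_of_eq ?_)
    congr 1
    · norm_num
    · refine Finset.sum_congr rfl fun k _ => ?_
      ring
  · have h := fb_key hFB (Finset.Ico 1 K)
      (fun k => 2 * ((1 - (k : ℝ) / K) * (1 + Real.cos (2 * Real.pi * k * t)))) 2 (K / 2) t (hpos t)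
      (by
        have h1 := hsplit (2 * Real.pi * t) (2 * Real.pi * t)
        have h2 := fb_fejer_nonneg K hK (2 * Real.pi * t)
        have h3 := fb_fejer_sq K hK (2 * Real.pi * t)
        have h4 : (2 : ℝ) + ∑ k ∈ Finset.Ico 1 K,
          (2 * ((1 - (k : ℝ) / K) * (1 + Real.cos (2 * Real.pi * k * t)))) *
            Real.cos (2 * Real.pi * (k * t)) = (2 : ℝ) + ∑ k ∈ Finset.Ico 1 K,
          (2 * ((1 - (k : ℝ) / K) * (1 + Real.cos (k * (2 * Real.pi * t))))) *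
            Real.cos (k * (2 * Real.pi * t)) := by
          congr 1
          refine Finset.sum_congr rfl fun k _ => ?_
          rw [show 2 * Real.pi * (k : ℝ) * t = k * (2 * Real.pi * t) by ring,
            show 2 * Real.pi * ((k : ℝ) * t) = k * (2 * Real.pi * t) by ring]
        rw [h4, h1]
        linarith)
    rw [Finset.mul_sum]
    refine le_trans (le_of_eq ?_) (h.trans (le_of_eq ?_))
    · rw [div_div]
    · congr 1
      · norm_num
      · refine Finset.sum_congr rfl fun k _ => ?_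
        ring

theorem st_F2 : ST_F2 := st_F2' st_FB

theorem st_F3' (hFB : ST_FB) : ST_F3 := by
  intro K s t hK
  -- first summation
  have hG : ∀ (s : ℝ) (n : ℕ), 0 ≤ (1 : ℝ) / 6 + ∑ k ∈ Finset.Ico 1 K,
      (2 * ((1 - (k : ℝ) / K) * B2 (k * t))) * Real.cos (2 * Real.pi * (n + 1) * (k * s)) := by
    intro s n
    have h := fb_key0 hFB (Finset.Ico 1 K) (fun k => 2 * ((1 - (k : ℝ) / K) *
      Real.cos (2 * Real.pi * (n + 1) * (k * s)))) 1 t (by
        intro m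
        have h3 := fb_fejer_prod K hK (2 * Real.pi * (n + 1) * s) (2 * Real.pi * (m + 1) * t)
        rw [Finset.mul_sum] at h3
        refine h3.trans (le_of_eq ?_)
        congr 1
        refine Finset.sum_congr rfl fun k _ => ?_
        rw [show 2 * Real.pi * ((n : ℝ) + 1) * (k * s) = k * (2 * Real.pi * (n + 1) * s) by ring,
          show 2 * Real.pi * ((m : ℝ) + 1) * (k * t) = k * (2 * Real.pi * (m + 1) * t) by ring]
        ring)
    refine h.trans (le_of_eq ?_)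
    congr 1
    refine Finset.sum_congr rfl fun k _ => ?_
    ring
  constructor
  · have h := fb_key0 hFB (Finset.Ico 1 K) (fun k => 2 * ((1 - (k : ℝ) / K) * B2 (k * t)))
      (1 / 6) s (hG s)
    rw [Finset.mul_sum]
    refine h.trans (le_of_eq ?_)
    congr 1
    · norm_num
    · refine Finset.sum_congr rfl fun k _ => ?_
      ring
  · have h := fb_key hFB (Finset.Ico 1 K) (fun k => 2 * ((1 - (k : ℝ) / K) * B2 (k * t)))
      (1 / 6) (K / 2 / Real.pi ^ 2) t (hG t) (by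
        have h2 := fb_key hFB (Finset.Ico 1 K) (fun k => 2 * ((1 - (k : ℝ) / K) *
          Real.cos (2 * Real.pi * (k * t)))) 1 (K / 2) t (by
            intro m
            have h3 := fb_fejer_prod K hK (2 * Real.pi * t) (2 * Real.pi * (m + 1) * t)
            rw [Finset.mul_sum] at h3
            refine h3.trans (le_of_eq ?_)
            congr 1
            refine Finset.sum_congr rfl fun k _ => ?_
            rw [show 2 * Real.pi * ((k : ℝ) * t) = k * (2 * Real.pi * t) by ring,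
              show 2 * Real.pi * ((m : ℝ) + 1) * (k * t) = k * (2 * Real.pi * (m + 1) * t) by ring]
            ring) (by
            have h3 := fb_fejer_sq K hK (2 * Real.pi * t)
            rw [Finset.mul_sum] at h3
            refine h3.trans (le_of_eq ?_)
            congr 1
            refine Finset.sum_congr rfl fun k _ => ?_
            rw [show 2 * Real.pi * ((k : ℝ) * t) = k * (2 * Real.pi * t) by ring]
            ring)
        refine h2.trans (le_of_eq ?_)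
        congr 1
        refine Finset.sum_congr rfl fun k _ => ?_
        ring)
    rw [Finset.mul_sum]
    refine le_trans (le_of_eq ?_) (h.trans (le_of_eq ?_))
    · rw [div_div, div_div]
      congr 1
      ring
    · congr 1
      · norm_num
      · refine Finset.sum_congr rfl fun k _ => ?_
        ring

theorem st_F3 : ST_F3 := st_F3' st_FB

theorem st_F4' (hFB : ST_FB) : ST_F4 := by
  intro K b t
  set S := Finset.Ico 1 K with hS
  set c : ℕ → ℝ := fun n => ∑ k ∈ S, b k * Real.cos (2 * Real.pi * (n + 1) * (k * t)) with hc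
  set X := ∑ k ∈ S, b k * B2 (k * t) with hX
  set Y := ∑ k ∈ S, ∑ l ∈ S, b k * b l * (B2 (((k : ℝ) - l) * t) + B2 (((k : ℝ) + l) * t)) with hY
  have h1 : HasSum (fun n : ℕ => c n / ((n : ℝ) + 1) ^ 2) (Real.pi ^ 2 * X) := by
    have h2 : HasSum (fun n : ℕ => ∑ k ∈ S, b k * (Real.cos (2 * Real.pi * (n + 1) * (k * t)) /
        ((n : ℝ) + 1) ^ 2)) (∑ k ∈ S, b k * (Real.pi ^ 2 * B2 (k * t))) :=
      hasSum_sum fun k _ => (hFB (k * t)).mul_left (b k)
    have e1 : (fun n : ℕ => c n / ((n : ℝ) + 1) ^ 2) = fun n : ℕ => ∑ k ∈ S, b k *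
        (Real.cos (2 * Real.pi * (n + 1) * (k * t)) / ((n : ℝ) + 1) ^ 2) := by
      funext n
      simp only [hc]
      rw [Finset.sum_div]
      refine Finset.sum_congr rfl fun k _ => ?_
      ring
    have e2 : Real.pi ^ 2 * X = ∑ k ∈ S, b k * (Real.pi ^ 2 * B2 (k * t)) := by
      rw [hX, Finset.mul_sum]
      refine Finset.sum_congr rfl fun k _ => ?_
      ring
    rw [e1, e2]; exact h2
  have h3 : HasSum (fun n : ℕ => 2 * c n ^ 2 / ((n : ℝ) + 1) ^ 2) (Real.pi ^ 2 * Y) := by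
    have h2 : HasSum (fun n : ℕ => ∑ k ∈ S, ∑ l ∈ S, (b k * b l) *
        (Real.cos (2 * Real.pi * (n + 1) * (((k : ℝ) - l) * t)) / ((n : ℝ) + 1) ^ 2 +
          Real.cos (2 * Real.pi * (n + 1) * (((k : ℝ) + l) * t)) / ((n : ℝ) + 1) ^ 2))
        (∑ k ∈ S, ∑ l ∈ S, (b k * b l) * (Real.pi ^ 2 * B2 (((k : ℝ) - l) * t) +
          Real.pi ^ 2 * B2 (((k : ℝ) + l) * t))) :=
      hasSum_sum fun k _ => hasSum_sum fun l _ =>
        ((hFB (((k : ℝ) - l) * t)).add (hFB (((k : ℝ) + l) * t))).mul_left (b k * b l)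
    have e1 : (fun n : ℕ => 2 * c n ^ 2 / ((n : ℝ) + 1) ^ 2) = fun n : ℕ => ∑ k ∈ S, ∑ l ∈ S,
        (b k * b l) *
        (Real.cos (2 * Real.pi * (n + 1) * (((k : ℝ) - l) * t)) / ((n : ℝ) + 1) ^ 2 +
          Real.cos (2 * Real.pi * (n + 1) * (((k : ℝ) + l) * t)) / ((n : ℝ) + 1) ^ 2) := by
      funext n
      have e3 : c n ^ 2 = ∑ k ∈ S, ∑ l ∈ S, (b k * Real.cos (2 * Real.pi * (n + 1) * (k * t))) *
          (b l * Real.cos (2 * Real.pi * (n + 1) * (l * t))) := by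
        rw [sq, hc, Finset.sum_mul_sum]
      rw [mul_div_assoc, e3, Finset.sum_div, Finset.mul_sum]
      refine Finset.sum_congr rfl fun k _ => ?_
      rw [Finset.sum_div, Finset.mul_sum]
      refine Finset.sum_congr rfl fun l _ => ?_
      rw [show 2 * Real.pi * ((n : ℝ) + 1) * (((k : ℝ) - l) * t) =
          2 * Real.pi * (n + 1) * (k * t) - 2 * Real.pi * (n + 1) * (l * t) by ring,
        show 2 * Real.pi * ((n : ℝ) + 1) * (((k : ℝ) + l) * t) =
          2 * Real.pi * (n + 1) * (k * t) + 2 * Real.pi * (n + 1) * (l * t) by ring,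
        Real.cos_sub, Real.cos_add]
      ring
    have e2 : Real.pi ^ 2 * Y = ∑ k ∈ S, ∑ l ∈ S, (b k * b l) *
        (Real.pi ^ 2 * B2 (((k : ℝ) - l) * t) + Real.pi ^ 2 * B2 (((k : ℝ) + l) * t)) := by
      rw [hY, Finset.mul_sum]
      refine Finset.sum_congr rfl fun k _ => ?_
      rw [Finset.mul_sum]
      refine Finset.sum_congr rfl fun l _ => ?_
      ring
    rw [e1, e2]; exact h2
  have h0 : HasSum (fun n : ℕ => 1 / ((n : ℝ) + 1) ^ 2) (Real.pi ^ 2 * (1 / 6)) := by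
    have := hFB 0
    rw [fb_B2_zero] at this
    simpa only [mul_zero, Real.cos_zero] using this
  -- Cauchy-Schwarz
  set x := 6 * X with hx
  have h4 : HasSum (fun n : ℕ => 2 * c n ^ 2 / ((n : ℝ) + 1) ^ 2 - (4 * x) * (c n / ((n : ℝ) + 1) ^ 2) +
      (2 * x ^ 2) * (1 / ((n : ℝ) + 1) ^ 2))
      (Real.pi ^ 2 * Y - (4 * x) * (Real.pi ^ 2 * X) + (2 * x ^ 2) * (Real.pi ^ 2 * (1 / 6))) :=
    (h3.sub (h1.mul_left (4 * x))).add (h0.mul_left (2 * x ^ 2))
  have h5 : 0 ≤ Real.pi ^ 2 * Y - (4 * x) * (Real.pi ^ 2 * X) +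
      (2 * x ^ 2) * (Real.pi ^ 2 * (1 / 6)) := by
    refine h4.nonneg fun n => ?_
    have : 2 * c n ^ 2 / ((n : ℝ) + 1) ^ 2 - (4 * x) * (c n / ((n : ℝ) + 1) ^ 2) +
      (2 * x ^ 2) * (1 / ((n : ℝ) + 1) ^ 2) = 2 * (c n - x) ^ 2 / ((n : ℝ) + 1) ^ 2 := by
      field_simp
      ring
    rw [this]; positivity
  have h6 : 0 ≤ Real.pi ^ 2 * (Y - 12 * X ^ 2) := by
    refine h5.trans (le_of_eq ?_)
    rw [hx]; ring
  have hpi : (0 : ℝ) < Real.pi ^ 2 := by positivity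
  have h7 := nonneg_of_mul_nonneg_right h6 hpi
  linarith

theorem st_F4 : ST_F4 := st_F4' st_FB

end Pool.Agent.Helper42.LS
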